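import Pool.Agent.V5helper28.KP.Stm

/-!
# Project KP, job UNI: the position is determined by the slope outside a null set
-/

set_option autoImplicit false

namespace Pool.Agent.V5helper96.KP

open MeasureTheory Set
open Pool.Agent.V5helper28.SSK Pool.Agent.V5helper28.KP
open scoped ENNReal

theorem t_UNI : Pool.Agent.V5helper28.KP.S_UNI := by
  intro d I _ _ v a r Γ hr0 hr1 hΓ hΓn hnull
  set P : ∀ n : ℕ, (Fin n → I) → Set (E d) := fun n u =>
    (fun x => r ^ n • x + X v r n u) '' (Prod.fst '' Γ) with hP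
  have hPc : ∀ n u, IsCompact (P n u) := by
    intro n u
    refine (hΓ.image continuous_fst).image ?_
    fun_prop
  refine ⟨⋃ n : ℕ, ⋃ p ∈ {p : (Fin n → I) × (Fin n → I) | p.1 ≠ p.2}, P n p.1 ∩ P n p.2, ?_, ?_, ?_⟩
  · refine MeasurableSet.iUnion fun n => ?_
    refine MeasurableSet.biUnion (Set.to_countable _) fun p _ => ?_
    exact (hPc n p.1).measurableSet.inter (hPc n p.2).measurableSet
  · rw [measure_iUnion_null_iff]
    intro n
    rw [measure_biUnion_null_iff (Set.to_countable _)]
    intro p hp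
    exact hnull n p.1 p.2 hp
  · intro z hz z' hz' hzz hN
    have key : ∀ n : ℕ, dist z z' ≤ r ^ n * Metric.diam Γ := by
      intro n
      have h1 := hz
      have h2 := hz'
      rw [hΓn n, mem_iUnion] at h1 h2
      obtain ⟨u, w, hw, hwz⟩ := h1
      obtain ⟨u', w', hw', hwz'⟩ := h2
      have hm : z.1 ∈ P n u := ⟨w.1, ⟨w, hw, rfl⟩, by rw [← hwz]; rfl⟩
      have hm' : z.1 ∈ P n u' := by
        rw [hzz]
        exact ⟨w'.1, ⟨w', hw', rfl⟩, by rw [← hwz']; rfl⟩
      have huu : u = u' := by
        by_contra hne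
        apply hN
        rw [mem_iUnion]
        refine ⟨n, ?_⟩
        rw [mem_iUnion₂]
        exact ⟨(u, u'), hne, hm, hm'⟩
      subst huu
      rw [← hwz, ← hwz']
      unfold Sw
      rw [dist_add_right, dist_smul₀, Real.norm_eq_abs, abs_of_pos (pow_pos hr0 n)]
      exact mul_le_mul_of_nonneg_left (Metric.dist_le_diam_of_mem hΓ.isBounded hw hw')
        (pow_pos hr0 n).le
    have hlim : Filter.Tendsto (fun n : ℕ => r ^ n * Metric.diam Γ) Filter.atTop (nhds 0) := by
      have := (tendsto_pow_atTop_nhds_zero_of_lt_one hr0.le hr1).mul_const (Metric.diam Γ)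
      rwa [zero_mul] at this
    have h0 : dist z z' ≤ 0 := ge_of_tendsto' hlim key
    exact dist_le_zero.mp h0

end Pool.Agent.V5helper96.KP
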